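import Pool.Agent.V5helper99.DC.Defs

namespace DC99

open Module

theorem t_J12 {n : ℕ} (P : Set (E n)) (T : E n ≃ᵢ E n) (hT : T '' P = P) (i : ℕ) (F : Set (E n))
    (hF : IsFace P i F) : IsFace P i (T '' F) := by
  obtain ⟨hne, hexp, hdim⟩ := hF
  set T' : E n ≃ᵃⁱ[ℝ] E n := T.toRealAffineIsometryEquiv with hT'
  have hTc : ∀ x, T' x = T x := fun x => by rw [hT', IsometryEquiv.coeFn_toRealAffineIsometryEquiv]
  refine ⟨hne.image _, ?_, ?_⟩
  · intro _
    obtain ⟨l, hl⟩ := hexp hne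
    let L : E n ≃ₗᵢ[ℝ] E n := T'.linearIsometryEquiv
    let l' : StrongDual ℝ (E n) := l.comp (L.symm.toContinuousLinearEquiv : E n →L[ℝ] E n)
    have hmap : ∀ x, L x = T x - T 0 := by
      intro x
      have h := T'.map_vadd 0 x
      rw [vadd_eq_add, add_zero, vadd_eq_add, hTc, hTc] at h
      rw [h]
      simp [L]
    have hl' : ∀ x, l' (T x) = l x + l' (T 0) := by
      intro x
      have h1 : T x = L x + T 0 := by rw [hmap]; abel
      rw [h1, map_add]
      congr 1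
      simp [l']
    refine ⟨l', ?_⟩
    ext x
    constructor
    · rintro ⟨y, hy, rfl⟩
      rw [hl] at hy
      obtain ⟨hyP, hy2⟩ := hy
      refine ⟨?_, ?_⟩
      · rw [← hT]
        exact ⟨y, hyP, rfl⟩
      · intro z hz
        rw [← hT] at hz
        obtain ⟨w, hw, rfl⟩ := hz
        rw [hl', hl' y]
        have := hy2 w hw
        linarith
    · rintro ⟨hx, hx2⟩
      rw [← hT] at hx
      obtain ⟨y, hy, rfl⟩ := hx
      refine ⟨y, ?_, rfl⟩
      rw [hl]
      refine ⟨hy, ?_⟩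
      intro z hz
      have h3 := hx2 (T z) (by rw [← hT]; exact ⟨z, hz, rfl⟩)
      rw [hl', hl' y] at h3
      linarith
  · have h1 : (T '' F : Set (E n)) = (T'.toAffineEquiv : E n →ᵃ[ℝ] E n) '' F := by
      ext x
      constructor
      · rintro ⟨y, hy, rfl⟩
        exact ⟨y, hy, hTc y⟩
      · rintro ⟨y, hy, rfl⟩
        exact ⟨y, hy, (hTc y).symm⟩
    rw [h1, ← AffineMap.map_vectorSpan]
    have h2 : ((T'.toAffineEquiv : E n →ᵃ[ℝ] E n).linear : E n →ₗ[ℝ] E n)
        = (T'.toAffineEquiv.linear : E n →ₗ[ℝ] E n) := rfl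
    rw [h2, LinearEquiv.finrank_map_eq, hdim]

end DC99
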