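import Pool.Agent.V5helper99.DC.Defs

namespace DC99

open Module

private lemma J13_card {n : ℕ} (s t : Finset (Fin n)) :
    (symmDiff s t).card + 2 * (s ∩ t).card = s.card + t.card := by
  have h1 : (symmDiff s t).card = (s \ t).card + (t \ s).card := by
    rw [symmDiff_def, Finset.sup_eq_union, Finset.card_union_of_disjoint]
    exact disjoint_sdiff_sdiff
  have h2 := Finset.card_sdiff_add_card_inter s t
  have h3 := Finset.card_sdiff_add_card_inter t s
  rw [Finset.inter_comm] at h3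
  omega

private lemma J13_dist {n : ℕ} (A B : Finset (Fin n)) :
    dist (pt A) (pt B) ^ 2 = 4 * ((symmDiff A B).card : ℝ) := by
  rw [EuclideanSpace.dist_eq, Real.sq_sqrt (Finset.sum_nonneg fun i _ => sq_nonneg _)]
  have h : ∀ i : Fin n, dist ((pt A) i) ((pt B) i) ^ 2 = if i ∈ symmDiff A B then (4 : ℝ) else 0 := by
    intro i
    rw [Real.dist_eq, sq_abs]
    by_cases hA : i ∈ A <;> by_cases hB : i ∈ B <;>
      simp [pt, hA, hB, Finset.mem_symmDiff] <;> norm_num
  rw [Finset.sum_congr rfl fun i _ => h i, Finset.sum_ite_mem, Finset.univ_inter,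
    Finset.sum_const, nsmul_eq_mul]
  ring

theorem t_J13 {n : ℕ} (V J W S : Finset (Fin n)) (hS : 4 ≤ S.card) (T : E n ≃ᵢ E n) :
    T '' hull (JT V J) ≠ hull (ST W S) := by
  intro hcon
  obtain ⟨S', hS'S, hS'c⟩ := Finset.exists_subset_card_eq hS
  obtain ⟨X, hXS, hXc⟩ : ∃ X : Finset (Fin n), X ⊆ S' ∧ Even (X.card + W.card) := by
    rcases Nat.even_or_odd W.card with hW | hW
    · exact ⟨∅, Finset.empty_subset _, by simpa using hW⟩
    · obtain ⟨a, ha⟩ : S'.Nonempty := by
        rw [← Finset.card_pos]; omega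
      refine ⟨{a}, by simpa using ha, ?_⟩
      rw [Finset.card_singleton]
      exact Odd.add_odd odd_one hW
  have hA : symmDiff W X ∈ ST W S := by
    refine ⟨?_, ?_⟩
    · have h := J13_card W X
      rw [Nat.even_iff] at hXc ⊢
      omega
    · rw [symmDiff_comm W X, symmDiff_symmDiff_cancel_right]
      exact hXS.trans hS'S
  have hB : symmDiff (symmDiff W X) S' ∈ ST W S := by
    refine ⟨?_, ?_⟩
    · have h := J13_card W X
      have h' := J13_card (symmDiff W X) S'
      rw [Nat.even_iff] at hXc ⊢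
      omega
    · intro z hz
      simp only [Finset.mem_symmDiff] at hz
      by_cases h1 : z ∈ S'
      · exact hS'S h1
      · by_cases h2 : z ∈ X
        · exact absurd (hXS h2) h1
        · exfalso
          tauto
  have hpA : pt (symmDiff W X) ∈ T '' hull (JT V J) := by
    rw [hcon]; exact subset_convexHull ℝ _ ⟨_, hA, rfl⟩
  have hpB : pt (symmDiff (symmDiff W X) S') ∈ T '' hull (JT V J) := by
    rw [hcon]; exact subset_convexHull ℝ _ ⟨_, hB, rfl⟩
  obtain ⟨x, hx, hxA⟩ := hpA
  obtain ⟨y, hy, hyB⟩ := hpB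
  obtain ⟨x', hx', y', hy', hd⟩ := convexHull_exists_dist_ge2 hx hy
  obtain ⟨A', ⟨j, hj, rfl⟩, rfl⟩ := hx'
  obtain ⟨B', ⟨j', hj', rfl⟩, rfl⟩ := hy'
  have h1 : dist x y ^ 2 = 16 := by
    rw [← T.dist_eq, hxA, hyB, J13_dist, ← symmDiff_assoc, symmDiff_self, bot_symmDiff, hS'c]
    norm_num
  have h2 : dist (pt (symmDiff V {j})) (pt (symmDiff V {j'})) ^ 2 ≤ 8 := by
    rw [J13_dist]
    have h3 : symmDiff (symmDiff V {j}) (symmDiff V {j'}) ⊆ ({j, j'} : Finset (Fin n)) := by
      intro z hz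
      simp only [Finset.mem_symmDiff, Finset.mem_singleton, Finset.mem_insert] at hz ⊢
      tauto
    have h4 := (Finset.card_le_card h3).trans Finset.card_le_two
    have h5 : ((symmDiff (symmDiff V {j}) (symmDiff V {j'})).card : ℝ) ≤ 2 := by exact_mod_cast h4
    linarith
  have h6 : dist x y ^ 2 ≤ dist (pt (symmDiff V {j})) (pt (symmDiff V {j'})) ^ 2 :=
    pow_le_pow_left₀ dist_nonneg hd 2
  linarith

end DC99
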